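import Pool.Agent.Lib.MP_eee7a8_ag.TB.IfaceA

/-!
# TAGBR, module CHARTIND: algebraically independent families are charts
-/

namespace Pool.Agent.Lib.MP_eee7a8_ag.TB

namespace AChartind

variable {G : Subgroup SLZ} {K : Type} [Field K] [Algebra ℂ K] (L : Lam G K) {ι : Type}
  [Fintype ι] (T : Fam ι)

theorem lam_ne (h : L.Ind T) (i : ι) : L.lam (T.s i) (T.t i) ≠ 0 :=
  h.ne_zero i

theorem mon_add (h : L.Ind T) (m n : ι → ℤ) : L.mon T (m + n) = L.mon T m * L.mon T n := by
  unfold Lam.mon
  rw [← Finset.prod_mul_distrib]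
  refine Finset.prod_congr rfl fun i _ => ?_
  rw [Pi.add_apply, zpow_add₀ (lam_ne L T h i)]

theorem mon_zero : L.mon T 0 = 1 := by
  unfold Lam.mon
  simp

/-- the monomials as a homomorphism -/
noncomputable def monHom (h : L.Ind T) : Multiplicative (ι → ℤ) →* K where
  toFun m := L.mon T m.toAdd
  map_one' := mon_zero L T
  map_mul' m n := mon_add L T h _ _

theorem ev_eq (h : L.Ind T) (p : AddMonoidAlgebra ℂ (ι → ℤ)) :
    L.ev T p = AddMonoidAlgebra.lift ℂ K (ι → ℤ) (monHom L T h) p := rfl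

theorem ev_inj (h : L.Ind T) (p : AddMonoidAlgebra ℂ (ι → ℤ)) (hp : L.ev T p = 0) : p = 0 := by
  classical
  -- a common denominator
  obtain ⟨N, hN⟩ : ∃ N : ℕ, ∀ m ∈ p.coeff.support, ∀ i, 0 ≤ m i + N := by
    refine ⟨∑ m ∈ p.coeff.support, ∑ i, (m i).natAbs, fun m hm i => ?_⟩
    have h1 : (m i).natAbs ≤ ∑ i, (m i).natAbs :=
      Finset.single_le_sum (f := fun i => (m i).natAbs) (fun _ _ => Nat.zero_le _)
        (Finset.mem_univ i)
    have h2 : ∑ i, (m i).natAbs ≤ ∑ m ∈ p.coeff.support, ∑ i, (m i).natAbs :=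
      Finset.single_le_sum (f := fun m : ι → ℤ => ∑ i, (m i).natAbs) (fun _ _ => Nat.zero_le _) hm
    omega
  let tn : (ι → ℤ) → (ι →₀ ℕ) := fun m => Finsupp.equivFunOnFinite.symm fun i => (m i + N).toNat
  have htn : ∀ m ∈ p.coeff.support, ∀ m' ∈ p.coeff.support, tn m = tn m' → m = m' := by
    intro m hm m' hm' he
    funext i
    have h1 : tn m i = tn m' i := by rw [he]
    change (m i + N).toNat = (m' i + N).toNat at h1
    have h2 := hN m hm i
    have h3 := hN m' hm' i
    omega
  have hae : ∀ m ∈ p.coeff.support, MvPolynomial.aeval (fun i => L.lam (T.s i) (T.t i))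
      (MvPolynomial.monomial (tn m) (p.coeff m)) =
      algebraMap ℂ K (p.coeff m) * L.mon T m * L.mon T (fun _ => (N : ℤ)) := by
    intro m hm
    rw [MvPolynomial.aeval_monomial, mul_assoc, ← mon_add L T h]
    congr 1
    unfold Lam.mon
    rw [Finsupp.prod_fintype _ _ (fun _ => pow_zero _)]
    refine Finset.prod_congr rfl fun i _ => ?_
    have h1 : tn m i = (m i + N).toNat := rfl
    rw [h1, ← zpow_natCast, Int.toNat_of_nonneg (hN m hm i)]
    rfl
  have hsum : MvPolynomial.aeval (fun i => L.lam (T.s i) (T.t i))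
      (∑ m ∈ p.coeff.support, MvPolynomial.monomial (tn m) (p.coeff m)) = (0 : K) := by
    rw [map_sum, Finset.sum_congr rfl hae, ← Finset.sum_mul]
    have : ∑ m ∈ p.coeff.support, algebraMap ℂ K (p.coeff m) * L.mon T m = L.ev T p := rfl
    rw [this, hp, zero_mul]
  have hz := (algebraicIndependent_iff.1 h) _ hsum
  have hc : ∀ m ∈ p.coeff.support, p.coeff m = 0 := by
    intro m hm
    have h1 := congrArg (MvPolynomial.coeff (tn m)) hz
    rw [MvPolynomial.coeff_sum, MvPolynomial.coeff_zero, Finset.sum_eq_single m] at h1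
    · rwa [MvPolynomial.coeff_monomial, if_pos rfl] at h1
    · intro m' hm' hne
      rw [MvPolynomial.coeff_monomial, if_neg]
      intro he
      exact hne (htn m' hm' m hm he)
    · intro hm'
      exact absurd hm hm'
  have : p.coeff = 0 := by
    ext m
    by_cases hm : m ∈ p.coeff.support
    · exact hc m hm
    · exact Finsupp.notMem_support_iff.1 hm
  exact AddMonoidAlgebra.coeff_eq_zero.1 this

end AChartind

open AChartind in
theorem chartind : ChartIndStatement := by
  intro G K _ _ L ι _ T h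
  refine ⟨?_, ?_, ?_, ?_⟩
  · intro p q hpq
    rw [ev_eq L T h, ev_eq L T h, ← sub_eq_zero, ← map_sub, ← ev_eq L T h] at hpq
    exact sub_eq_zero.1 (ev_inj L T h _ hpq)
  · intro p q
    simp only [ev_eq L T h, map_mul]
  · simp only [ev_eq L T h, map_one]
  · intro p q
    simp only [ev_eq L T h, map_add]

end Pool.Agent.Lib.MP_eee7a8_ag.TB
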