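import Pool.Agent.Lib.MP_eee7a8_ag.TB.IfaceA

/-!
# TAGBR, module MATCH: a triangulation contained in another one is equal to it
-/

namespace Pool.Agent.Lib.MP_eee7a8_ag.TB

theorem match_ : MatchStatement := by
  classical
  intro G ι κ T T' hT hT' h
  have h' : ∀ a b, T.E G a b → T'.E G a b := by
    intro a b hab
    by_contra hn
    rcases hT'.star a b (hT.ne' hab) with h1 | ⟨c, d, _, _, hcd, hc⟩
    · exact hn h1
    · exact hT.nocross a b c d hab (h c d hcd) hc
  have he : ∀ i, ∃ j, SameArc G (T'.s j) (T'.t j) (T.s i) (T.t i) :=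
    fun i => h' _ _ (T.E_self i)
  have hf : ∀ j, ∃ i, SameArc G (T.s i) (T.t i) (T'.s j) (T'.t j) :=
    fun j => h _ _ (T'.E_self j)
  choose e he using he
  choose f hf using hf
  refine ⟨⟨e, f, fun i => ?_, fun j => ?_⟩, fun i => (he i).symm⟩
  · exact hT.inj _ _ ((hf (e i)).trans (he i))
  · exact hT'.inj _ _ ((he (f j)).trans (hf j))

end Pool.Agent.Lib.MP_eee7a8_ag.TB
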